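import Mathlib
import Pool.Agent.V8H27.MK.G.MkD

set_option autoImplicit false

/-!
# Rows 1800 to 1999
-/

namespace Pool.Agent.V8H27.MK.G.MkC9

open Pool.Agent.V8H27.MK

theorem a0 : MkD.E.rows 1800 8 = true := by decide +kernel

theorem a1 : MkD.E.rows 1808 8 = true := by decide +kernel

theorem a2 : MkD.E.rows 1816 8 = true := by decide +kernel

theorem a3 : MkD.E.rows 1824 8 = true := by decide +kernel

theorem a4 : MkD.E.rows 1832 8 = true := by decide +kernel

theorem a5 : MkD.E.rows 1840 8 = true := by decide +kernel

theorem a6 : MkD.E.rows 1848 8 = true := by decide +kernel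

theorem a7 : MkD.E.rows 1856 8 = true := by decide +kernel

theorem a8 : MkD.E.rows 1864 8 = true := by decide +kernel

theorem a9 : MkD.E.rows 1872 8 = true := by decide +kernel

theorem a10 : MkD.E.rows 1880 8 = true := by decide +kernel

theorem a11 : MkD.E.rows 1888 8 = true := by decide +kernel

theorem a12 : MkD.E.rows 1896 8 = true := by decide +kernel

theorem a13 : MkD.E.rows 1904 8 = true := by decide +kernel

theorem a14 : MkD.E.rows 1912 8 = true := by decide +kernel

theorem a15 : MkD.E.rows 1920 8 = true := by decide +kernel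

theorem a16 : MkD.E.rows 1928 8 = true := by decide +kernel

theorem a17 : MkD.E.rows 1936 8 = true := by decide +kernel

theorem a18 : MkD.E.rows 1944 8 = true := by decide +kernel

theorem a19 : MkD.E.rows 1952 8 = true := by decide +kernel

theorem a20 : MkD.E.rows 1960 8 = true := by decide +kernel

theorem a21 : MkD.E.rows 1968 8 = true := by decide +kernel

theorem a22 : MkD.E.rows 1976 8 = true := by decide +kernel

theorem a23 : MkD.E.rows 1984 8 = true := by decide +kernel

theorem a24 : MkD.E.rows 1992 8 = true := by decide +kernel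

theorem all (r1 : ℕ) (h0 : 1800 ≤ r1) (h1 : r1 < 2000) : MkD.E.row r1 = true := by
  obtain ⟨k, hk⟩ : ∃ k, k = (r1 - 1800) / 8 := ⟨_, rfl⟩
  have hk' : k < 25 := by omega
  interval_cases k
  · exact PDat.rows_sound a0 r1 (by omega) (by omega)
  · exact PDat.rows_sound a1 r1 (by omega) (by omega)
  · exact PDat.rows_sound a2 r1 (by omega) (by omega)
  · exact PDat.rows_sound a3 r1 (by omega) (by omega)
  · exact PDat.rows_sound a4 r1 (by omega) (by omega)
  · exact PDat.rows_sound a5 r1 (by omega) (by omega)
  · exact PDat.rows_sound a6 r1 (by omega) (by omega)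
  · exact PDat.rows_sound a7 r1 (by omega) (by omega)
  · exact PDat.rows_sound a8 r1 (by omega) (by omega)
  · exact PDat.rows_sound a9 r1 (by omega) (by omega)
  · exact PDat.rows_sound a10 r1 (by omega) (by omega)
  · exact PDat.rows_sound a11 r1 (by omega) (by omega)
  · exact PDat.rows_sound a12 r1 (by omega) (by omega)
  · exact PDat.rows_sound a13 r1 (by omega) (by omega)
  · exact PDat.rows_sound a14 r1 (by omega) (by omega)
  · exact PDat.rows_sound a15 r1 (by omega) (by omega)
  · exact PDat.rows_sound a16 r1 (by omega) (by omega)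
  · exact PDat.rows_sound a17 r1 (by omega) (by omega)
  · exact PDat.rows_sound a18 r1 (by omega) (by omega)
  · exact PDat.rows_sound a19 r1 (by omega) (by omega)
  · exact PDat.rows_sound a20 r1 (by omega) (by omega)
  · exact PDat.rows_sound a21 r1 (by omega) (by omega)
  · exact PDat.rows_sound a22 r1 (by omega) (by omega)
  · exact PDat.rows_sound a23 r1 (by omega) (by omega)
  · exact PDat.rows_sound a24 r1 (by omega) (by omega)

end Pool.Agent.V8H27.MK.G.MkC9
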