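import Mathlib
import Pool.Agent.K7.H27.MK.SkelF
import Pool.Agent.K7.H27.MK.UnW
import Pool.Agent.V8H27.MK.G.MkC0
import Pool.Agent.V8H27.MK.G.MkC1
import Pool.Agent.V8H27.MK.G.MkC2
import Pool.Agent.V8H27.MK.G.MkC3
import Pool.Agent.V8H27.MK.G.MkC4
import Pool.Agent.V8H27.MK.G.MkC5
import Pool.Agent.V8H27.MK.G.MkC6
import Pool.Agent.V8H27.MK.G.MkC7
import Pool.Agent.V8H27.MK.G.MkC8
import Pool.Agent.V8H27.MK.G.MkC9
import Pool.Agent.V8H27.MK.G.MkC10
import Pool.Agent.V8H27.MK.G.MkC11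
import Pool.Agent.V8H27.MK.G.MkC12
import Pool.Agent.V8H27.MK.G.MkC13
import Pool.Agent.V8H27.MK.G.MkC14
import Pool.Agent.V8H27.MK.G.MkC15
import Pool.Agent.V8H27.MK.G.MkC16
import Pool.Agent.V8H27.MK.G.MkC17
import Pool.Agent.V8H27.MK.G.MkC18
import Pool.Agent.V8H27.MK.G.MkC19

set_option autoImplicit false

namespace Pool.Agent.V8H27.MK.G.MkF

open Pool.Agent.K7.H27.MK
open Pool.Agent.V8H27.MK
open MkD

theorem hrow (r1 : ℕ) (h1 : r1 < E.D.L) : E.row r1 = true := by
  have hL : E.D.L = 4000 := rfl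
  rw [hL] at h1
  rcases Nat.lt_or_ge r1 200 with h0 | h0
  · exact MkC0.all r1 (by omega) (by omega)
  rcases Nat.lt_or_ge r1 400 with h1 | h1
  · exact MkC1.all r1 (by omega) (by omega)
  rcases Nat.lt_or_ge r1 600 with h2 | h2
  · exact MkC2.all r1 (by omega) (by omega)
  rcases Nat.lt_or_ge r1 800 with h3 | h3
  · exact MkC3.all r1 (by omega) (by omega)
  rcases Nat.lt_or_ge r1 1000 with h4 | h4
  · exact MkC4.all r1 (by omega) (by omega)
  rcases Nat.lt_or_ge r1 1200 with h5 | h5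
  · exact MkC5.all r1 (by omega) (by omega)
  rcases Nat.lt_or_ge r1 1400 with h6 | h6
  · exact MkC6.all r1 (by omega) (by omega)
  rcases Nat.lt_or_ge r1 1600 with h7 | h7
  · exact MkC7.all r1 (by omega) (by omega)
  rcases Nat.lt_or_ge r1 1800 with h8 | h8
  · exact MkC8.all r1 (by omega) (by omega)
  rcases Nat.lt_or_ge r1 2000 with h9 | h9
  · exact MkC9.all r1 (by omega) (by omega)
  rcases Nat.lt_or_ge r1 2200 with h10 | h10
  · exact MkC10.all r1 (by omega) (by omega)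
  rcases Nat.lt_or_ge r1 2400 with h11 | h11
  · exact MkC11.all r1 (by omega) (by omega)
  rcases Nat.lt_or_ge r1 2600 with h12 | h12
  · exact MkC12.all r1 (by omega) (by omega)
  rcases Nat.lt_or_ge r1 2800 with h13 | h13
  · exact MkC13.all r1 (by omega) (by omega)
  rcases Nat.lt_or_ge r1 3000 with h14 | h14
  · exact MkC14.all r1 (by omega) (by omega)
  rcases Nat.lt_or_ge r1 3200 with h15 | h15
  · exact MkC15.all r1 (by omega) (by omega)
  rcases Nat.lt_or_ge r1 3400 with h16 | h16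
  · exact MkC16.all r1 (by omega) (by omega)
  rcases Nat.lt_or_ge r1 3600 with h17 | h17
  · exact MkC17.all r1 (by omega) (by omega)
  rcases Nat.lt_or_ge r1 3800 with h18 | h18
  · exact MkC18.all r1 (by omega) (by omega)
  exact MkC19.all r1 (by omega) (by omega)

theorem cert : Cert om (pB om wd 1 4000 - pB om wd 0 4000) (pB om wd 0 4000) (pB om wd) 4000 2 1 := by
  have h := PDat.cert ok path hrow
  have e0 : pB om wd 0 4000 = (⟨D.ca, D.cb⟩ : Z) := by
    rw [path 0 (by norm_num) 4000 (le_refl _)]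
    have := ends
    ext
    · exact this.1
    · exact this.2.1
  have e1 : pB om wd 1 4000 - pB om wd 0 4000 = (⟨D.ma, D.mb⟩ : Z) := by
    rw [path 1 (by norm_num) 4000 (le_refl _), path 0 (by norm_num) 4000 (le_refl _)]
    have := ends
    ext
    · show fx 1 4000 - fx 0 4000 = D.ma
      rw [this.1, this.2.2.1]; rfl
    · show fy 1 4000 - fy 0 4000 = D.mb
      rw [this.2.1, this.2.2.2]; rfl
  rw [e1, e0]
  exact h

end Pool.Agent.V8H27.MK.G.MkF
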